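import Pool.Agent.Helper79.GL4.GoalsR

set_option autoImplicit false
set_option linter.unusedVariables false
set_option linter.unusedSectionVars false

/-! GL4: orbits of the full linear group on points, lines and flags (GLO) -/

namespace GL4.H4

open Module Submodule GL4

section ext
variable {F : Type} [Field F] {V : Type} [AddCommGroup V] [Module F V]

theorem sumExtend_inl {ι : Type} {v : ι → V} (h : LinearIndependent F v) (i : ι) :
    Basis.sumExtend h (Sum.inl i) = v i := by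
  simp only [Basis.sumExtend, Basis.coe_reindex, Basis.coe_extend, Function.comp]
  rfl

/-- two independent families of the same type are conjugate -/
theorem ext_ind [FiniteDimensional F V] {ι : Type} [Finite ι] {v v' : ι → V}
    (h : LinearIndependent F v) (h' : LinearIndependent F v') :
    ∃ g : V ≃ₗ[F] V, ∀ i, g (v i) = v' i := by
  classical
  have f1 : Finite (ι ⊕ Basis.sumExtendIndex h) := Module.Finite.finite_basis (Basis.sumExtend h)
  have f2 : Finite (ι ⊕ Basis.sumExtendIndex h') := Module.Finite.finite_basis (Basis.sumExtend h')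
  have f3 : Finite (Basis.sumExtendIndex h) :=
    Finite.of_injective (Sum.inr : _ → ι ⊕ Basis.sumExtendIndex h) Sum.inr_injective
  have f4 : Finite (Basis.sumExtendIndex h') :=
    Finite.of_injective (Sum.inr : _ → ι ⊕ Basis.sumExtendIndex h') Sum.inr_injective
  have h1 := finrank_eq_nat_card_basis (Basis.sumExtend h)
  have h2 := finrank_eq_nat_card_basis (Basis.sumExtend h')
  rw [Nat.card_sum] at h1 h2
  have h3 : Nat.card (Basis.sumExtendIndex h) = Nat.card (Basis.sumExtendIndex h') := by omega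
  obtain ⟨e⟩ := (Finite.card_eq (α := Basis.sumExtendIndex h)).1 h3
  refine ⟨(Basis.sumExtend h).equiv (Basis.sumExtend h')
    (Equiv.sumCongr (Equiv.refl ι) e), fun i => ?_⟩
  have h5 := (Basis.sumExtend h).equiv_apply (Sum.inl i) (Basis.sumExtend h')
    (Equiv.sumCongr (Equiv.refl ι) e)
  rw [sumExtend_inl] at h5
  rw [h5]
  simp [sumExtend_inl]

theorem li2 {a b : V} (ha : a ≠ 0) (hb : b ∉ span F {a}) : LinearIndependent F ![a, b] := by
  rw [LinearIndependent.pair_iff' ha]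
  intro c hc
  exact hb (mem_span_singleton.2 ⟨c, hc⟩)

theorem li3 {a b c : V} (h : LinearIndependent F ![a, b]) (hc : c ∉ span F {a, b}) :
    LinearIndependent F ![a, b, c] := by
  rw [LinearIndependent.pair_iff] at h
  rw [Fintype.linearIndependent_iff]
  intro g hg
  simp only [Fin.sum_univ_three] at hg
  simp only [Matrix.cons_val_zero, Matrix.cons_val_one, Matrix.cons_val] at hg
  have h2 : g 2 = 0 := by
    by_contra h0
    apply hc
    rw [mem_span_pair]
    refine ⟨-(g 2)⁻¹ * g 0, -(g 2)⁻¹ * g 1, ?_⟩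
    have h5 : c = (g 2)⁻¹ • (g 2 • c) := by rw [smul_smul, inv_mul_cancel₀ h0, one_smul]
    have h6 : g 2 • c = -(g 0 • a) - g 1 • b := by
      rw [sub_eq_add_neg, ← neg_add, eq_neg_iff_add_eq_zero, add_comm]; exact hg
    rw [h6] at h5
    rw [h5, smul_sub, smul_neg, smul_smul, smul_smul, neg_mul, neg_mul, neg_smul, neg_smul]
    abel
  rw [h2, zero_smul, add_zero] at hg
  obtain ⟨h0, h1⟩ := h _ _ hg
  intro i
  fin_cases i
  · exact h0
  · exact h1
  · exact h2

theorem li4 {a b c d : V} (h : LinearIndependent F ![a, b]) (h' : LinearIndependent F ![c, d])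
    (hd : span F {a, b} ⊓ span F {c, d} = ⊥) : LinearIndependent F ![a, b, c, d] := by
  rw [LinearIndependent.pair_iff] at h h'
  rw [Fintype.linearIndependent_iff]
  intro g hg
  simp only [Fin.sum_univ_four] at hg
  simp only [Matrix.cons_val_zero, Matrix.cons_val_one, Matrix.cons_val] at hg
  have h5 : g 0 • a + g 1 • b = -(g 2 • c + g 3 • d) := by
    rw [eq_neg_iff_add_eq_zero, ← hg]; abel
  have h6 : g 0 • a + g 1 • b = 0 := by
    have : g 0 • a + g 1 • b ∈ span F {a, b} ⊓ span F {c, d} := by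
      refine ⟨mem_span_pair.2 ⟨_, _, rfl⟩, ?_⟩
      rw [h5]
      exact neg_mem (mem_span_pair.2 ⟨_, _, rfl⟩)
    rw [hd] at this
    exact (mem_bot F).1 this
  have h7 : g 2 • c + g 3 • d = 0 := by rw [h6] at h5; exact neg_eq_zero.1 h5.symm
  obtain ⟨h0, h1⟩ := h _ _ h6
  obtain ⟨h2, h3⟩ := h' _ _ h7
  intro i
  fin_cases i
  · exact h0
  · exact h1
  · exact h2
  · exact h3

theorem ln_span {a b : V} (h : LinearIndependent F ![a, b]) : Ln (span F {a, b}) := by
  have h1 := finrank_span_eq_card h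
  have h2 : Set.range ![a, b] = {a, b} := by
    ext x
    simp only [Set.mem_range, Fin.exists_fin_two, Matrix.cons_val_zero, Matrix.cons_val_one,
      Set.mem_insert_iff, Set.mem_singleton_iff]
    constructor
    · rintro (h | h)
      · exact Or.inl h.symm
      · exact Or.inr h.symm
    · rintro (h | h)
      · exact Or.inl h.symm
      · exact Or.inr h.symm
  rw [h2, Fintype.card_fin] at h1
  exact h1

theorem Ln_fd {L : Submodule F V} (h : Ln L) : FiniteDimensional F L :=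
  FiniteDimensional.of_finrank_pos (by rw [h]; norm_num)

/-- a line is spanned by any two independent vectors in it -/
theorem ln_eq {L : Submodule F V} (hL : Ln L) {a b : V} (ha : a ∈ L) (hb : b ∈ L)
    (h : LinearIndependent F ![a, b]) : L = span F {a, b} := by
  have := Ln_fd hL
  symm
  apply Submodule.eq_of_le_of_finrank_eq
  · rw [span_le]
    rintro x (rfl | rfl)
    · exact ha
    · exact hb
  · rw [ln_span h, hL]

theorem ln_ext {L : Submodule F V} (hL : Ln L) {a : V} (ha : a ∈ L) (h0 : a ≠ 0) :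
    ∃ b ∈ L, LinearIndependent F ![a, b] := by
  have := Ln_fd hL
  have h1 : ¬ L ≤ span F {a} := by
    intro hle
    have h2 := Submodule.finrank_mono hle
    rw [hL, finrank_span_singleton h0] at h2
    omega
  obtain ⟨b, hb, hb'⟩ := Set.not_subset.1 h1
  exact ⟨b, hb, li2 h0 hb'⟩

theorem ln_pt {L P : Submodule F V} (hL : Ln L) (hP : Pt P) (h : P ≤ L) :
    ∃ a b : V, LinearIndependent F ![a, b] ∧ P = span F {a} ∧ L = span F {a, b} := by
  obtain ⟨a, ha, rfl⟩ := hP.exists_span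
  have haL : a ∈ L := h (mem_span_singleton_self a)
  obtain ⟨b, hb, hab⟩ := ln_ext hL haL ha
  exact ⟨a, b, hab, rfl, ln_eq hL haL hb hab⟩

theorem pt2 {P Q : Submodule F V} (hP : Pt P) (hQ : Pt Q) (h : P ≠ Q) :
    ∃ a b : V, LinearIndependent F ![a, b] ∧ P = span F {a} ∧ Q = span F {b} := by
  obtain ⟨a, ha, rfl⟩ := hP.exists_span
  obtain ⟨b, hb, rfl⟩ := hQ.exists_span
  refine ⟨a, b, li2 ha ?_, rfl, rfl⟩
  intro hc
  exact h (hQ.eq_of_le hP (by rwa [span_singleton_le_iff_mem])).symm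

/-- two distinct points of a line span it -/
theorem ln_pts {L P Q : Submodule F V} (hL : Ln L) (hP : Pt P) (hQ : Pt Q) (h : P ≠ Q)
    (hPL : P ≤ L) (hQL : Q ≤ L) :
    ∃ a b : V, LinearIndependent F ![a, b] ∧ P = span F {a} ∧ Q = span F {b} ∧
      L = span F {a, b} := by
  obtain ⟨a, b, hab, rfl, rfl⟩ := pt2 hP hQ h
  exact ⟨a, b, hab, rfl, rfl, ln_eq hL (hPL (mem_span_singleton_self a))
    (hQL (mem_span_singleton_self b)) hab⟩

/-- two distinct lines meet in `0` or in a point -/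
theorem ln_inf {L L' : Submodule F V} (hL : Ln L) (hL' : Ln L') (h : L ≠ L') :
    L ⊓ L' = ⊥ ∨ Pt (L ⊓ L') := by
  have := Ln_fd hL
  have := Ln_fd hL'
  have h1 : finrank F (L ⊓ L' : Submodule F V) ≤ 2 := by
    rw [← hL]; exact Submodule.finrank_mono inf_le_left
  have h2 : finrank F (L ⊓ L' : Submodule F V) ≠ 2 := by
    intro h2
    apply h
    have h3 : L ⊓ L' = L := Submodule.eq_of_le_of_finrank_eq inf_le_left (by rw [h2, hL])
    have h4 : L ⊓ L' = L' := Submodule.eq_of_le_of_finrank_eq inf_le_right (by rw [h2, hL'])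
    rw [← h3, h4]
  by_cases h0 : finrank F (L ⊓ L' : Submodule F V) = 0
  · left; exact Submodule.finrank_eq_zero.1 h0
  · right; rw [Pt]; omega

theorem im_span_pair (g : V ≃ₗ[F] V) (a b : V) :
    im g (span F {a, b}) = span F {g a, g b} := by
  rw [im, Submodule.map_span, Set.image_pair]; rfl

theorem im_span_one (g : V ≃ₗ[F] V) (a : V) : im g (span F {a}) = span F {g a} :=
  im_span_singleton g a

end ext

section orbits
variable {G X : Type} [Group G] [MulAction G X]

/-- upper bound for the number of orbits -/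
theorem orb_le {N : ℕ} (R : Fin N → X → Prop) (h1 : ∀ x, ∃ i, R i x)
    (h2 : ∀ i x y, R i x → R i y → ∃ g : G, g • x = y) : orb G X ≤ N := by
  classical
  choose i hi using h1
  have h3 : Function.Injective (fun q : MulAction.orbitRel.Quotient G X => i (Quotient.out q)) := by
    intro q q' h
    have h4 : R (i (Quotient.out q)) (Quotient.out q') := by
      have := hi (Quotient.out q')
      simp only at h
      rwa [← h] at this
    obtain ⟨g, hg⟩ := h2 _ _ _ (hi (Quotient.out q)) h4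
    rw [← Quotient.out_eq q, ← Quotient.out_eq q']
    apply Quotient.sound
    show (MulAction.orbitRel G X) _ _
    rw [MulAction.orbitRel_apply, MulAction.mem_orbit_iff]
    exact ⟨g⁻¹, by rw [← hg, inv_smul_smul]⟩
  unfold orb
  calc Nat.card (MulAction.orbitRel.Quotient G X) ≤ Nat.card (Fin N) :=
        Nat.card_le_card_of_injective _ h3
    _ = N := by simp

/-- lower bound for the number of orbits -/
theorem le_orb [Finite X] {N : ℕ} (f : X → Fin N) (h1 : ∀ (g : G) x, f (g • x) = f x)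
    (h2 : Function.Surjective f) : N ≤ orb G X := by
  have hf : Finite (MulAction.orbitRel.Quotient G X) := Quotient.finite _
  unfold orb
  calc N = Nat.card (Fin N) := by simp
    _ ≤ Nat.card (MulAction.orbitRel.Quotient G X) := by
      refine Nat.card_le_card_of_surjective (Quotient.lift f ?_) ?_
      · intro a b hab
        obtain ⟨g, hg⟩ := (MulAction.orbitRel_apply.1 hab : a ∈ MulAction.orbit G b)
        rw [← hg]
        exact h1 g b
      · intro i
        obtain ⟨x, hx⟩ := h2 i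
        exact ⟨Quotient.mk _ x, hx⟩

theorem orb_one [Finite X] (hX : Nonempty X) (h : ∀ x y : X, ∃ g : G, g • x = y) : orb G X = 1 := by
  apply le_antisymm
  · exact orb_le (fun _ _ => True) (fun _ => ⟨0, trivial⟩) (fun _ x y _ _ => h x y)
  · exact le_orb (fun _ => (0 : Fin 1)) (fun _ _ => rfl) (fun i => by
      obtain ⟨x⟩ := hX
      exact ⟨x, (Fin.fin_one_eq_zero i).symm⟩)

end orbits

section main
variable {F : Type} [Field F] {V : Type} [AddCommGroup V] [Module F V]

theorem pts_smul (g : V ≃ₗ[F] V) (x y : Pts F V) (h : im g x.1 = y.1) : g • x = y :=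
  Subtype.ext h

theorem lns_smul (g : V ≃ₗ[F] V) (x y : Lns F V) (h : im g x.1 = y.1) : g • x = y :=
  Subtype.ext h

theorem flg_smul (g : V ≃ₗ[F] V) (x y : Flg F V) (h1 : im g x.1.1 = y.1.1)
    (h2 : im g x.1.2 = y.1.2) : g • x = y :=
  Subtype.ext (Prod.ext h1 h2)

/-- the seven positions of two flags -/
def RF (i : Fin 7) (x : Flg F V × Flg F V) : Prop :=
  match i with
  | 0 => ∃ a b : V, LinearIndependent F ![a, b] ∧ x.1.1.1 = span F {a} ∧ x.1.1.2 = span F {a, b} ∧
      x.2.1.1 = span F {a} ∧ x.2.1.2 = span F {a, b}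
  | 1 => ∃ a b c : V, LinearIndependent F ![a, b, c] ∧ x.1.1.1 = span F {a} ∧
      x.1.1.2 = span F {a, b} ∧ x.2.1.1 = span F {a} ∧ x.2.1.2 = span F {a, c}
  | 2 => ∃ a b : V, LinearIndependent F ![a, b] ∧ x.1.1.1 = span F {a} ∧ x.1.1.2 = span F {a, b} ∧
      x.2.1.1 = span F {b} ∧ x.2.1.2 = span F {a, b}
  | 3 => ∃ a b c : V, LinearIndependent F ![a, b, c] ∧ x.1.1.1 = span F {a} ∧
      x.1.1.2 = span F {a, b} ∧ x.2.1.1 = span F {c} ∧ x.2.1.2 = span F {a, c}
  | 4 => ∃ a b c : V, LinearIndependent F ![a, b, c] ∧ x.1.1.1 = span F {a} ∧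
      x.1.1.2 = span F {a, b} ∧ x.2.1.1 = span F {b} ∧ x.2.1.2 = span F {b, c}
  | 5 => ∃ a b c : V, LinearIndependent F ![a, b, c] ∧ x.1.1.1 = span F {a} ∧
      x.1.1.2 = span F {a, b} ∧ x.2.1.1 = span F {c} ∧ x.2.1.2 = span F {b, c}
  | 6 => ∃ a b c d : V, LinearIndependent F ![a, b, c, d] ∧ x.1.1.1 = span F {a} ∧
      x.1.1.2 = span F {a, b} ∧ x.2.1.1 = span F {c} ∧ x.2.1.2 = span F {c, d}

variable [FiniteDimensional F V]

theorem ext2 {a b a' b' : V} (h : LinearIndependent F ![a, b])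
    (h' : LinearIndependent F ![a', b']) : ∃ g : V ≃ₗ[F] V, g a = a' ∧ g b = b' := by
  obtain ⟨g, hg⟩ := ext_ind h h'
  exact ⟨g, hg 0, hg 1⟩

theorem ext3 {a b c a' b' c' : V} (h : LinearIndependent F ![a, b, c])
    (h' : LinearIndependent F ![a', b', c']) :
    ∃ g : V ≃ₗ[F] V, g a = a' ∧ g b = b' ∧ g c = c' := by
  obtain ⟨g, hg⟩ := ext_ind h h'
  exact ⟨g, hg 0, hg 1, hg 2⟩

theorem ext4 {a b c d a' b' c' d' : V} (h : LinearIndependent F ![a, b, c, d])
    (h' : LinearIndependent F ![a', b', c', d']) :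
    ∃ g : V ≃ₗ[F] V, g a = a' ∧ g b = b' ∧ g c = c' ∧ g d = d' := by
  obtain ⟨g, hg⟩ := ext_ind h h'
  exact ⟨g, hg 0, hg 1, hg 2, hg 3⟩

theorem RF_trans (i : Fin 7) (x y : Flg F V × Flg F V) (hx : RF i x) (hy : RF i y) :
    ∃ g : V ≃ₗ[F] V, g • x = y := by
  fin_cases i
  · obtain ⟨a, b, h, h1, h2, h3, h4⟩ := hx
    obtain ⟨a', b', h', h1', h2', h3', h4'⟩ := hy
    obtain ⟨g, ga, gb⟩ := ext2 h h'
    refine ⟨g, Prod.ext (flg_smul g _ _ ?_ ?_) (flg_smul g _ _ ?_ ?_)⟩
    · rw [h1, h1', im_span_one, ga]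
    · rw [h2, h2', im_span_pair, ga, gb]
    · rw [h3, h3', im_span_one, ga]
    · rw [h4, h4', im_span_pair, ga, gb]
  · obtain ⟨a, b, c, h, h1, h2, h3, h4⟩ := hx
    obtain ⟨a', b', c', h', h1', h2', h3', h4'⟩ := hy
    obtain ⟨g, ga, gb, gc⟩ := ext3 h h'
    refine ⟨g, Prod.ext (flg_smul g _ _ ?_ ?_) (flg_smul g _ _ ?_ ?_)⟩
    · rw [h1, h1', im_span_one, ga]
    · rw [h2, h2', im_span_pair, ga, gb]
    · rw [h3, h3', im_span_one, ga]
    · rw [h4, h4', im_span_pair, ga, gc]
  · obtain ⟨a, b, h, h1, h2, h3, h4⟩ := hx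
    obtain ⟨a', b', h', h1', h2', h3', h4'⟩ := hy
    obtain ⟨g, ga, gb⟩ := ext2 h h'
    refine ⟨g, Prod.ext (flg_smul g _ _ ?_ ?_) (flg_smul g _ _ ?_ ?_)⟩
    · rw [h1, h1', im_span_one, ga]
    · rw [h2, h2', im_span_pair, ga, gb]
    · rw [h3, h3', im_span_one, gb]
    · rw [h4, h4', im_span_pair, ga, gb]
  · obtain ⟨a, b, c, h, h1, h2, h3, h4⟩ := hx
    obtain ⟨a', b', c', h', h1', h2', h3', h4'⟩ := hy
    obtain ⟨g, ga, gb, gc⟩ := ext3 h h'
    refine ⟨g, Prod.ext (flg_smul g _ _ ?_ ?_) (flg_smul g _ _ ?_ ?_)⟩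
    · rw [h1, h1', im_span_one, ga]
    · rw [h2, h2', im_span_pair, ga, gb]
    · rw [h3, h3', im_span_one, gc]
    · rw [h4, h4', im_span_pair, ga, gc]
  · obtain ⟨a, b, c, h, h1, h2, h3, h4⟩ := hx
    obtain ⟨a', b', c', h', h1', h2', h3', h4'⟩ := hy
    obtain ⟨g, ga, gb, gc⟩ := ext3 h h'
    refine ⟨g, Prod.ext (flg_smul g _ _ ?_ ?_) (flg_smul g _ _ ?_ ?_)⟩
    · rw [h1, h1', im_span_one, ga]
    · rw [h2, h2', im_span_pair, ga, gb]
    · rw [h3, h3', im_span_one, gb]
    · rw [h4, h4', im_span_pair, gb, gc]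
  · obtain ⟨a, b, c, h, h1, h2, h3, h4⟩ := hx
    obtain ⟨a', b', c', h', h1', h2', h3', h4'⟩ := hy
    obtain ⟨g, ga, gb, gc⟩ := ext3 h h'
    refine ⟨g, Prod.ext (flg_smul g _ _ ?_ ?_) (flg_smul g _ _ ?_ ?_)⟩
    · rw [h1, h1', im_span_one, ga]
    · rw [h2, h2', im_span_pair, ga, gb]
    · rw [h3, h3', im_span_one, gc]
    · rw [h4, h4', im_span_pair, gb, gc]
  · obtain ⟨a, b, c, d, h, h1, h2, h3, h4⟩ := hx
    obtain ⟨a', b', c', d', h', h1', h2', h3', h4'⟩ := hy
    obtain ⟨g, ga, gb, gc, gd⟩ := ext4 h h'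
    refine ⟨g, Prod.ext (flg_smul g _ _ ?_ ?_) (flg_smul g _ _ ?_ ?_)⟩
    · rw [h1, h1', im_span_one, ga]
    · rw [h2, h2', im_span_pair, ga, gb]
    · rw [h3, h3', im_span_one, gc]
    · rw [h4, h4', im_span_pair, gc, gd]

/-- if `L ⊓ L' = ⟨q⟩`, and `q, b` span `L`, `q, c` span `L'`, then `q, b, c` are independent -/
theorem li_q {L L' : Submodule F V} {q b c : V} (hL : L = span F {q, b})
    (hL' : L' = span F {q, c}) (h : LinearIndependent F ![q, b]) (h' : LinearIndependent F ![q, c])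
    (hq : L ⊓ L' = span F {q}) : LinearIndependent F ![q, b, c] := by
  apply li3 h
  intro hc
  have h1 : c ∈ L ⊓ L' := ⟨by rw [hL]; exact hc, by rw [hL']; exact subset_span (by simp)⟩
  rw [hq] at h1
  obtain ⟨t, ht⟩ := mem_span_singleton.1 h1
  rw [LinearIndependent.pair_iff] at h'
  have := (h' t (-1) (by rw [ht]; simp)).2
  simp at this

theorem li_perm3 {a b c : V} (σ : Fin 3 → Fin 3) (hσ : Function.Injective σ)
    (h : LinearIndependent F ![a, b, c]) : LinearIndependent F (![a, b, c] ∘ σ) :=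
  h.comp σ hσ

theorem RF_ex (x : Flg F V × Flg F V) : ∃ i, RF i x := by
  obtain ⟨⟨⟨P, L⟩, hP, hL, hPL⟩, ⟨⟨P', L'⟩, hP', hL', hPL'⟩⟩ := x
  simp only at hP hL hPL hP' hL' hPL'
  by_cases hLL : L = L'
  · subst hLL
    by_cases hPP : P = P'
    · subst hPP
      obtain ⟨a, b, hab, h1, h2⟩ := ln_pt hL hP hPL
      exact ⟨0, a, b, hab, h1, h2, h1, h2⟩
    · obtain ⟨a, b, hab, h1, h2, h3⟩ := ln_pts hL hP hP' hPP hPL hPL'
      exact ⟨2, a, b, hab, h1, h3, h2, h3⟩
  · rcases ln_inf hL hL' hLL with h0 | hQ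
    · obtain ⟨a, b, hab, h1, h2⟩ := ln_pt hL hP hPL
      obtain ⟨c, d, hcd, h3, h4⟩ := ln_pt hL' hP' hPL'
      exact ⟨6, a, b, c, d, li4 hab hcd (by rw [← h2, ← h4]; exact h0), h1, h2, h3, h4⟩
    · by_cases hPQ : L ⊓ L' = P
      · by_cases hPQ' : L ⊓ L' = P'
        · -- both
          obtain ⟨q, hq0, hq⟩ := hQ.exists_span
          have hqL : q ∈ L ⊓ L' := by rw [hq]; exact mem_span_singleton_self q
          obtain ⟨b, hb, hqb⟩ := ln_ext hL hqL.1 hq0
          obtain ⟨c, hc, hqc⟩ := ln_ext hL' hqL.2 hq0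
          have h1 := ln_eq hL hqL.1 hb hqb
          have h2 := ln_eq hL' hqL.2 hc hqc
          exact ⟨1, q, b, c, li_q h1 h2 hqb hqc hq, hPQ.symm.trans hq, h1, hPQ'.symm.trans hq, h2⟩
        · -- P = Q, P' ≠ Q
          obtain ⟨q, c, hqc, h3, h4, h5⟩ := ln_pts hL' hQ hP' hPQ' inf_le_right hPL'
          have hqL : q ∈ L ⊓ L' := by rw [h3]; exact mem_span_singleton_self q
          have hq0 : q ≠ 0 := by
            rintro rfl
            exact hQ.ne_bot (by rw [h3]; simp)
          obtain ⟨b, hb, hqb⟩ := ln_ext hL hqL.1 hq0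
          have h1 := ln_eq hL hqL.1 hb hqb
          exact ⟨3, q, b, c, li_q h1 h5 hqb hqc h3, hPQ.symm.trans h3, h1, h4, h5⟩
      · by_cases hPQ' : L ⊓ L' = P'
        · -- P ≠ Q, P' = Q
          obtain ⟨q, b, hqb, h3, h4, h5⟩ := ln_pts hL hQ hP hPQ inf_le_left hPL
          have hqL : q ∈ L ⊓ L' := by rw [h3]; exact mem_span_singleton_self q
          have hq0 : q ≠ 0 := by
            rintro rfl
            exact hQ.ne_bot (by rw [h3]; simp)
          obtain ⟨c, hc, hqc⟩ := ln_ext hL' hqL.2 hq0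
          have h2 := ln_eq hL' hqL.2 hc hqc
          have h6 := li_q h5 h2 hqb hqc h3
          -- a = b, b = q, c = c
          refine ⟨4, b, q, c, ?_, h4, h5.trans (by rw [Set.pair_comm]), hPQ'.symm.trans h3, h2⟩
          have h7 := li_perm3 ![1, 0, 2] (by decide) h6
          convert h7 using 1
          funext i
          fin_cases i <;> rfl
        · obtain ⟨q, b, hqb, h3, h4, h5⟩ := ln_pts hL hQ hP hPQ inf_le_left hPL
          obtain ⟨q', c, hqc, h3', h4', h5'⟩ := ln_pts hL' hQ hP' hPQ' inf_le_right hPL'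
          -- replace q' by q
          have hq' : q ∈ L ⊓ L' := by rw [h3]; exact mem_span_singleton_self q
          have hq0 : q ≠ 0 := by
            rintro rfl
            exact hQ.ne_bot (by rw [h3]; simp)
          have hqc' : LinearIndependent F ![q, c] := by
            apply li2 hq0
            intro hc
            rw [← h3, h3'] at hc
            obtain ⟨t, ht⟩ := mem_span_singleton.1 hc
            rw [LinearIndependent.pair_iff] at hqc
            have := (hqc t (-1) (by rw [ht]; simp)).2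
            simp at this
          have hcL' : c ∈ L' := by rw [h5']; exact subset_span (by simp)
          have h6' := ln_eq hL' hq'.2 hcL' hqc'
          have h6 := li_q h5 h6' hqb hqc' h3
          refine ⟨5, b, q, c, ?_, h4, h5.trans (by rw [Set.pair_comm]), h4', h6'⟩
          have h7 := li_perm3 ![1, 0, 2] (by decide) h6
          convert h7 using 1
          funext i
          fin_cases i <;> rfl

/-- the three positions of two lines -/
def RL (i : Fin 3) (x : Lns F V × Lns F V) : Prop :=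
  match i with
  | 0 => ∃ a b : V, LinearIndependent F ![a, b] ∧ x.1.1 = span F {a, b} ∧ x.2.1 = span F {a, b}
  | 1 => ∃ a b c : V, LinearIndependent F ![a, b, c] ∧ x.1.1 = span F {a, b} ∧
      x.2.1 = span F {a, c}
  | 2 => ∃ a b c d : V, LinearIndependent F ![a, b, c, d] ∧ x.1.1 = span F {a, b} ∧
      x.2.1 = span F {c, d}

theorem RL_trans (i : Fin 3) (x y : Lns F V × Lns F V) (hx : RL i x) (hy : RL i y) :
    ∃ g : V ≃ₗ[F] V, g • x = y := by
  fin_cases i
  · obtain ⟨a, b, h, h1, h2⟩ := hx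
    obtain ⟨a', b', h', h1', h2'⟩ := hy
    obtain ⟨g, ga, gb⟩ := ext2 h h'
    refine ⟨g, Prod.ext (lns_smul g _ _ ?_) (lns_smul g _ _ ?_)⟩
    · rw [h1, h1', im_span_pair, ga, gb]
    · rw [h2, h2', im_span_pair, ga, gb]
  · obtain ⟨a, b, c, h, h1, h2⟩ := hx
    obtain ⟨a', b', c', h', h1', h2'⟩ := hy
    obtain ⟨g, ga, gb, gc⟩ := ext3 h h'
    refine ⟨g, Prod.ext (lns_smul g _ _ ?_) (lns_smul g _ _ ?_)⟩
    · rw [h1, h1', im_span_pair, ga, gb]
    · rw [h2, h2', im_span_pair, ga, gc]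
  · obtain ⟨a, b, c, d, h, h1, h2⟩ := hx
    obtain ⟨a', b', c', d', h', h1', h2'⟩ := hy
    obtain ⟨g, ga, gb, gc, gd⟩ := ext4 h h'
    refine ⟨g, Prod.ext (lns_smul g _ _ ?_) (lns_smul g _ _ ?_)⟩
    · rw [h1, h1', im_span_pair, ga, gb]
    · rw [h2, h2', im_span_pair, gc, gd]

theorem ln_ex {L : Submodule F V} (hL : Ln L) :
    ∃ a b : V, LinearIndependent F ![a, b] ∧ L = span F {a, b} := by
  have h0 : L ≠ ⊥ := by
    rintro rfl
    rw [Ln, finrank_bot] at hL
    omega
  obtain ⟨P, hP, hPL⟩ := exists_pt_le h0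
  obtain ⟨a, b, hab, _, h2⟩ := ln_pt hL hP hPL
  exact ⟨a, b, hab, h2⟩

theorem RL_ex (x : Lns F V × Lns F V) : ∃ i, RL i x := by
  obtain ⟨⟨L, hL⟩, ⟨L', hL'⟩⟩ := x
  by_cases hLL : L = L'
  · subst hLL
    obtain ⟨a, b, hab, h2⟩ := ln_ex hL
    exact ⟨0, a, b, hab, h2, h2⟩
  · rcases ln_inf hL hL' hLL with h0 | hQ
    · obtain ⟨a, b, hab, h2⟩ := ln_ex hL
      obtain ⟨c, d, hcd, h4⟩ := ln_ex hL'
      exact ⟨2, a, b, c, d, li4 hab hcd (by rw [← h2, ← h4]; exact h0), h2, h4⟩
    · obtain ⟨q, hq0, hq⟩ := hQ.exists_span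
      have hqL : q ∈ L ⊓ L' := by rw [hq]; exact mem_span_singleton_self q
      obtain ⟨b, hb, hqb⟩ := ln_ext hL hqL.1 hq0
      obtain ⟨c, hc, hqc⟩ := ln_ext hL' hqL.2 hq0
      have h1 := ln_eq hL hqL.1 hb hqb
      have h2 := ln_eq hL' hqL.2 hc hqc
      exact ⟨1, q, b, c, li_q h1 h2 hqb hqc hq, h1, h2⟩

theorem ex2 (hn : 2 ≤ finrank F V) : ∃ a b : V, LinearIndependent F ![a, b] := by
  have h := (finBasis F V).linearIndependent.comp (![⟨0, by omega⟩, ⟨1, by omega⟩] :
    Fin 2 → Fin (finrank F V)) (by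
      intro i j hij
      fin_cases i <;> fin_cases j <;> simp_all)
  refine ⟨(finBasis F V) ⟨0, by omega⟩, (finBasis F V) ⟨1, by omega⟩, ?_⟩
  convert h using 1
  funext i
  fin_cases i <;> rfl

theorem ex3 (hn : 3 ≤ finrank F V) : ∃ a b c : V, LinearIndependent F ![a, b, c] := by
  have h := (finBasis F V).linearIndependent.comp (![⟨0, by omega⟩, ⟨1, by omega⟩,
    ⟨2, by omega⟩] : Fin 3 → Fin (finrank F V)) (by
      intro i j hij
      fin_cases i <;> fin_cases j <;> simp_all)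
  refine ⟨(finBasis F V) ⟨0, by omega⟩, (finBasis F V) ⟨1, by omega⟩,
    (finBasis F V) ⟨2, by omega⟩, ?_⟩
  convert h using 1
  funext i
  fin_cases i <;> rfl

theorem li2_ne {a b : V} (h : LinearIndependent F ![a, b]) : a ≠ 0 ∧ b ≠ 0 :=
  ⟨h.ne_zero 0, h.ne_zero 1⟩

theorem li2_span_ne {a b : V} (h : LinearIndependent F ![a, b]) : span F {a} ≠ span F {b} := by
  intro he
  have h1 : b ∈ span F {a} := by rw [he]; exact mem_span_singleton_self b
  obtain ⟨t, ht⟩ := mem_span_singleton.1 h1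
  rw [LinearIndependent.pair_iff] at h
  have := (h t (-1) (by rw [ht]; simp)).2
  simp at this

theorem li3_not {a b c : V} (h : LinearIndependent F ![a, b, c]) : c ∉ span F {a, b} := by
  intro hc
  obtain ⟨s, t, ht⟩ := mem_span_pair.1 hc
  rw [Fintype.linearIndependent_iff] at h
  have := h ![s, t, -1] (by simp [Fin.sum_univ_three, ht]) 2
  simp at this

end main

theorem glo : GL4.GLO := by
  intro F _ _ V _ _ _ hn
  obtain ⟨a, b, hab⟩ := ex2 (F := F) (V := V) hn
  obtain ⟨ha, hb⟩ := li2_ne hab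
  have hPne : Nonempty (Pts F V) := ⟨⟨span F {a}, pt_span ha⟩⟩
  have hLne : Nonempty (Lns F V) := ⟨⟨span F {a, b}, ln_span hab⟩⟩
  have hFne : Nonempty (Flg F V) := ⟨⟨(span F {a}, span F {a, b}), pt_span ha, ln_span hab,
    span_mono (by simp)⟩⟩
  have hPtr : ∀ x y : Pts F V, ∃ g : V ≃ₗ[F] V, g • x = y := by
    intro x y
    obtain ⟨v, hv, hx⟩ := x.2.exists_span
    obtain ⟨w, hw, hy⟩ := y.2.exists_span
    obtain ⟨g, hg⟩ := ext_ind (F := F) (v := ![v]) (v' := ![w])
      (linearIndependent_unique_iff.2 hv) (linearIndependent_unique_iff.2 hw)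
    refine ⟨g, pts_smul g _ _ ?_⟩
    have h1 : g v = w := hg 0
    rw [hx, hy, im_span_one, h1]
  refine ⟨orb_one hPne hPtr, ?_, ?_, ?_, ?_, ?_, ?_⟩
  · apply le_antisymm
    · refine orb_le (fun i x => (i = 0 ∧ x.1 = x.2) ∨ (i = 1 ∧ x.1 ≠ x.2)) (fun x => ?_) ?_
      · by_cases h : x.1 = x.2
        · exact ⟨0, Or.inl ⟨rfl, h⟩⟩
        · exact ⟨1, Or.inr ⟨rfl, h⟩⟩
      · rintro i ⟨x1, x2⟩ ⟨y1, y2⟩ (⟨h0, hx⟩ | ⟨h0, hx⟩) (⟨h0', hy⟩ | ⟨h0', hy⟩)
        · simp only at hx hy
          subst hx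
          subst hy
          obtain ⟨g, hg⟩ := hPtr x1 y1
          exact ⟨g, Prod.ext hg hg⟩
        · rw [h0] at h0'; exact absurd h0' (by decide)
        · rw [h0] at h0'; exact absurd h0' (by decide)
        · obtain ⟨v, w, hvw, h1, h2⟩ := pt2 x1.2 x2.2 (fun he => hx (Subtype.ext he))
          obtain ⟨v', w', hvw', h1', h2'⟩ := pt2 y1.2 y2.2 (fun he => hy (Subtype.ext he))
          obtain ⟨g, gv, gw⟩ := ext2 hvw hvw'
          refine ⟨g, Prod.ext (pts_smul g _ _ ?_) (pts_smul g _ _ ?_)⟩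
          · show im g x1.1 = y1.1
            rw [h1, h1', im_span_one, gv]
          · show im g x2.1 = y2.1
            rw [h2, h2', im_span_one, gw]
    · classical
      refine le_orb (fun x => if x.1 = x.2 then 0 else 1) ?_ ?_
      · rintro g ⟨x, y⟩
        show (if g • x = g • y then (0 : Fin 2) else 1) = if x = y then 0 else 1
        simp only [smul_left_cancel_iff]
      · intro i
        fin_cases i
        · exact ⟨(⟨span F {a}, pt_span ha⟩, ⟨span F {a}, pt_span ha⟩), if_pos rfl⟩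
        · refine ⟨(⟨span F {a}, pt_span ha⟩, ⟨span F {b}, pt_span hb⟩), ?_⟩
          have h1 : (⟨span F {a}, pt_span ha⟩ : Pts F V) ≠ ⟨span F {b}, pt_span hb⟩ := fun he =>
            li2_span_ne hab (congrArg Subtype.val he)
          exact if_neg h1
  · refine orb_one hLne (fun x y => ?_)
    obtain ⟨v, w, hvw, h1⟩ := ln_ex x.2
    obtain ⟨v', w', hvw', h1'⟩ := ln_ex y.2
    obtain ⟨g, gv, gw⟩ := ext2 hvw hvw'
    refine ⟨g, lns_smul g _ _ ?_⟩
    rw [h1, h1', im_span_pair, gv, gw]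
  · refine orb_one hFne (fun x y => ?_)
    obtain ⟨v, w, hvw, h1, h2⟩ := ln_pt x.2.2.1 x.2.1 x.2.2.2
    obtain ⟨v', w', hvw', h1', h2'⟩ := ln_pt y.2.2.1 y.2.1 y.2.2.2
    obtain ⟨g, gv, gw⟩ := ext2 hvw hvw'
    refine ⟨g, flg_smul g _ _ ?_ ?_⟩
    · rw [h1, h1', im_span_one, gv]
    · rw [h2, h2', im_span_pair, gv, gw]
  · exact orb_le RF RF_ex RF_trans
  · exact orb_le RL RL_ex RL_trans
  · intro hn3
    obtain ⟨a, b, c, habc⟩ := ex3 (F := F) (V := V) hn3
    have ha : a ≠ 0 := habc.ne_zero 0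
    have hb : b ≠ 0 := habc.ne_zero 1
    have hc : c ≠ 0 := habc.ne_zero 2
    have hab : LinearIndependent F ![a, b] := by
      have h7 := habc.comp (![0, 1] : Fin 2 → Fin 3) (by decide)
      convert h7 using 1
      funext i
      fin_cases i <;> rfl
    have hcn := li3_not habc
    classical
    constructor
    · refine le_orb (fun x => if x.2.1 = x.1.1.1 then 0 else if x.2.1 ≤ x.1.1.2 then 1 else 2)
        ?_ ?_
      · rintro g ⟨x, y⟩
        show (if im g y.1 = im g x.1.1 then (0 : Fin 3) else if im g y.1 ≤ im g x.1.2 then 1 else 2)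
          = if y.1 = x.1.1 then 0 else if y.1 ≤ x.1.2 then 1 else 2
        simp only [im_inj, im_le_im_iff]
      · have hf : Pt (span F {a}) ∧ Ln (span F {a, b}) ∧ span F {a} ≤ span F {a, b} :=
          ⟨pt_span ha, ln_span hab, span_mono (by simp)⟩
        intro i
        fin_cases i
        · exact ⟨(⟨(span F {a}, span F {a, b}), hf⟩, ⟨span F {a}, pt_span ha⟩), by simp⟩
        · refine ⟨(⟨(span F {a}, span F {a, b}), hf⟩, ⟨span F {b}, pt_span hb⟩), ?_⟩
          have h1 : span F {b} ≠ span F {a} := (li2_span_ne hab).symm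
          have h2 : span F {b} ≤ span F {a, b} := span_mono (by simp)
          show (if span F {b} = span F {a} then (0 : Fin 3) else if span F {b} ≤ span F {a, b}
            then 1 else 2) = 1
          rw [if_neg h1, if_pos h2]
        · refine ⟨(⟨(span F {a}, span F {a, b}), hf⟩, ⟨span F {c}, pt_span hc⟩), ?_⟩
          have h2 : ¬ span F {c} ≤ span F {a, b} := by
            rw [span_singleton_le_iff_mem]; exact hcn
          have h1 : span F {c} ≠ span F {a} := fun he => h2 (he ▸ hf.2.2)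
          show (if span F {c} = span F {a} then (0 : Fin 3) else if span F {c} ≤ span F {a, b}
            then 1 else 2) = 2
          rw [if_neg h1, if_neg h2]
    · refine le_orb (fun x => if x.2.1 ≤ x.1.1 then 0 else 1) ?_ ?_
      · rintro g ⟨x, y⟩
        show (if im g y.1 ≤ im g x.1 then (0 : Fin 2) else 1) = if y.1 ≤ x.1 then 0 else 1
        simp only [im_le_im_iff]
      · intro i
        fin_cases i
        · refine ⟨(⟨span F {a, b}, ln_span hab⟩, ⟨span F {b}, pt_span hb⟩), ?_⟩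
          have h2 : span F {b} ≤ span F {a, b} := span_mono (by simp)
          show (if span F {b} ≤ span F {a, b} then (0 : Fin 2) else 1) = 0
          rw [if_pos h2]
        · refine ⟨(⟨span F {a, b}, ln_span hab⟩, ⟨span F {c}, pt_span hc⟩), ?_⟩
          have h2 : ¬ span F {c} ≤ span F {a, b} := by
            rw [span_singleton_le_iff_mem]; exact hcn
          show (if span F {c} ≤ span F {a, b} then (0 : Fin 2) else 1) = 1
          rw [if_neg h2]

end GL4.H4
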